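import Pool.Agent.Q15.DI.Main4

/-!
# Irreducibility for a set of primes of density one

Let `π` be an algebraic cuspidal automorphic representation of `GL_n` over a number field `K` (for
example `ℚ`) whose Hecke polynomials `P v` (the characteristic polynomials of the Satake
parameters in Clozel's normalisation) have coefficients in a number field `E`.  We show that the
representations attached to `π` are irreducible for all places `w` of `E` outside a set of
density zero, if the Hecke polynomials are sufficiently general: for `0 < d < n` and for the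
prime divisors `q` of `n`, the set `C d` (`C' q`) of the automorphisms in `Gal(Ē/E)` which have
no stable set of `d` roots (which have an orbit of length prime to `q` on the roots) of
some `P v` is dense in `Gal(Ē/E)`.  This is so, for example, if `π` is essentially self-dual,
`n = 2 m`, and for every finite extension `E'` of `E` there is a `v` for which `P v` has the
largest possible Galois group `(ℤ/2)^m ⋊ S_m` both over `E` and over `E'`.  Nothing is assumed at
infinity (no regularity) or at `ℓ`, no self-duality, no semisimplicity.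

If `C d` and `C' q` are dense only in the set of all automorphisms whose restriction to a finite
Galois extension `L` of `E` is in `D ⊆ Gal(L/E)`, then the upper density of the bad places is at
most `1 - |D| / [L : E]`.  For example let `L` be a splitting field of finitely many `P v`, and
let `D` be the set of the `g ∈ Gal(L/E)` which have the properties above on the roots of these
`P v`; so there is an explicit bound from finitely many Hecke polynomials.

Proof.  Let `ρ` be attached to `π` for the place `w` above `ℓ`, outside a finite set, and let `σ`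
be a Frobenius element at `w` in `Gal(Ē/E)`.  On the roots of `P v` (`v` in a finite set) `σ`
is induced by an automorphism `γ` of `ℚ̄_ℓ` which fixes `E`, as `P v` splits in an unramified
extension.  The traces of `ρ` are fixed by `γ` (Chebotarev), so `γ` permutes the irreducible
constituents of `ρ`.  Let `r` be the length of the orbit of a constituent of dimension `d < n`.  For
every `v`, its eigenvalues at `v` form a `γ ^ r`-stable submultiset `A` of the roots of `P v`, and
the sum of `A, γ A, ..., γ ^ (r - 1) A` is a `γ`-stable submultiset.  If `r d < n` there is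
a `γ`-stable submultiset with `r d` elements, for every `v`; if `r d = n`, then `r > 1` divides
the lengths of the orbits, times the multiplicities, for every `v`.  So a place is good if its
Frobenius element has a certificate which excludes this.  The sets `C d` and `C' q` are unions of
cosets of subgroups of index at most `n!`; so if they are dense in an open set, then finitely
many `v` suffice for a subset of almost full Haar measure.  Chebotarev's theorem over `E` (which
is proved in the library) gives the result.
-/

set_option autoImplicit false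

namespace Pool.Agent.Results.MP_fa5bba_nt.DensityOne

open NumberField IsDedekindDomain Polynomial Filter

section
variable {K E : Type} [Field K] [NumberField K] [Field E] [NumberField E] {n ℓ : ℕ} [Fact ℓ.Prime]

/-- The matrix of `g`. -/
noncomputable def mat (ρ : Gal(AlgebraicClosure K/K) →* GL (Fin n) (PadicAlgCl ℓ))
    (g : Gal(AlgebraicClosure K/K)) : Matrix (Fin n) (Fin n) (PadicAlgCl ℓ) :=
  (ρ g : GL (Fin n) (PadicAlgCl ℓ))

/-- The characteristic polynomial of every geometric Frobenius element at `v` is the image of
`P` under `τ`. -/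
def AttachedAt (τ : E →+* PadicAlgCl ℓ)
    (ρ : Gal(AlgebraicClosure K/K) →* GL (Fin n) (PadicAlgCl ℓ)) (v : HeightOneSpectrum (𝓞 K))
    (P : E[X]) : Prop :=
  ∀ Q : Ideal (𝓞 (AlgebraicClosure K)), Q.IsMaximal →
    Q.comap (algebraMap (𝓞 K) (𝓞 (AlgebraicClosure K))) = v.asIdeal →
    ∀ g : Gal(AlgebraicClosure K/K),
      (∀ x : 𝓞 (AlgebraicClosure K), g • x - x ^ Ideal.absNorm v.asIdeal ∈ Q) →
        (mat ρ g⁻¹).charpoly = P.map τ

/-- `ρ` is irreducible. -/
def IsIrreducible (ρ : Gal(AlgebraicClosure K/K) →* GL (Fin n) (PadicAlgCl ℓ)) : Prop :=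
  0 < n ∧ ∀ W : Submodule (PadicAlgCl ℓ) (Fin n → PadicAlgCl ℓ),
    (∀ g, ∀ x ∈ W, Matrix.mulVec (mat ρ g) x ∈ W) → W = ⊥ ∨ W = ⊤
end

/-- The place `w` of `E` is bad: for some embedding `τ` of `E` into `ℚ̄_ℓ` which induces the place
`w`, there is a continuous representation attached to the polynomials `P v`, `v` not in `S` and not
above `ℓ`, via `τ`, which is not irreducible. -/
def Bad {K E : Type} [Field K] [NumberField K] [Field E] [NumberField E] (n : ℕ)
    (S : Set (HeightOneSpectrum (𝓞 K))) (P : HeightOneSpectrum (𝓞 K) → E[X])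
    (w : HeightOneSpectrum (𝓞 E)) : Prop :=
  ∃ (ℓ : ℕ) (_ : Fact ℓ.Prime) (τ : E →+* PadicAlgCl ℓ)
    (ρ : Gal(AlgebraicClosure K/K) →* GL (Fin n) (PadicAlgCl ℓ)),
    (∀ x : 𝓞 E, x ∈ w.asIdeal ↔ ‖τ x‖ < 1) ∧ Continuous ρ ∧
    (∀ v ∉ S, (ℓ : 𝓞 K) ∉ v.asIdeal → AttachedAt τ ρ v (P v)) ∧ ¬ IsIrreducible ρ

/-- The upper (natural) density of the set of places of `E` with the property `D` is at most
`c`. -/
def UpperDensityLE {E : Type} [Field E] [NumberField E] (D : HeightOneSpectrum (𝓞 E) → Prop)
    (c : ℝ) : Prop :=
  ∀ ε > 0, ∀ᶠ X : ℕ in atTop,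
    (Nat.card {w : HeightOneSpectrum (𝓞 E) // Ideal.absNorm w.asIdeal ≤ X ∧ D w} : ℝ) ≤
      (c + ε) * (Nat.card {w : HeightOneSpectrum (𝓞 E) // Ideal.absNorm w.asIdeal ≤ X} : ℝ)

/-- The set `C d` of the automorphisms `σ ∈ Gal(Ē/E)` for which there is a place `v ∉ S` such that
`P v` has degree `n` and no `σ`-stable submultiset of the multiset of its roots has `d`
elements. -/
def NoStableSubset {K E : Type} [Field K] [NumberField K] [Field E] [NumberField E] (n : ℕ)
    (S : Set (HeightOneSpectrum (𝓞 K))) (P : HeightOneSpectrum (𝓞 K) → E[X]) (d : ℕ) :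
    Set Gal(AlgebraicClosure E/E) :=
  {σ | ∃ v ∉ S, (P v).natDegree = n ∧ ∀ A ≤ (P v).aroots (AlgebraicClosure E),
    A.map σ = A → Multiset.card A ≠ d}

open Classical in
/-- The set `C' q` of the automorphisms `σ ∈ Gal(Ē/E)` for which there are a place `v ∉ S` such
that `P v` has degree `n`, and a root `x` of `P v` such that `q` does not divide the multiplicity of
`x` times the length of the orbit of `x` under `σ`. -/
def OrbitPrimeTo {K E : Type} [Field K] [NumberField K] [Field E] [NumberField E] (n : ℕ)
    (S : Set (HeightOneSpectrum (𝓞 K))) (P : HeightOneSpectrum (𝓞 K) → E[X]) (q : ℕ) :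
    Set Gal(AlgebraicClosure E/E) :=
  {σ | ∃ v ∉ S, (P v).natDegree = n ∧ ∃ x ∈ (P v).aroots (AlgebraicClosure E),
    ¬ q ∣ ((P v).aroots (AlgebraicClosure E)).count x * Function.minimalPeriod σ x}

/-- **Irreducibility for a set of primes of density one.**

Let `K`, `E` be number fields, `S` a finite set of places of `K` and `P v ∈ E[X]`
polynomials (in the application the Hecke polynomials of an algebraic cuspidal automorphic
representation of `GL_n` over `K`, outside its ramified places).  Let `L` be a finite Galois
extension of `E` in `Ē`, and `D` a subset of `Gal(L/E)`.  Suppose that for every `0 < d < n` the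
closure of `NoStableSubset n S P d`, and for every prime number `q` dividing `n` the closure of
`OrbitPrimeTo n S P q`, contain all `σ ∈ Gal(Ē/E)` whose restriction to `L` is in `D`.  Then the
upper density of the set of the bad places of `E` is at most `1 - |D| / [L : E]`.  In particular it
has density zero, if these sets are dense in `Gal(Ē/E)`. -/
theorem result {K E : Type} [Field K] [NumberField K] [Field E] [NumberField E]
    {n : ℕ} (hn : 0 < n) (S : Set (HeightOneSpectrum (𝓞 K))) (hS : S.Finite)
    (P : HeightOneSpectrum (𝓞 K) → E[X])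
    (L : IntermediateField E (AlgebraicClosure E)) [FiniteDimensional E L] [IsGalois E L]
    (D : Set Gal(L/E))
    (hsize : ∀ d, 0 < d → d < n → ∀ σ : Gal(AlgebraicClosure E/E),
      AlgEquiv.restrictNormal σ L ∈ D → σ ∈ closure (NoStableSubset n S P d))
    (hperiod : ∀ q, q.Prime → q ∣ n → ∀ σ : Gal(AlgebraicClosure E/E),
      AlgEquiv.restrictNormal σ L ∈ D → σ ∈ closure (OrbitPrimeTo n S P q)) :
    UpperDensityLE (Bad n S P) (1 - (Nat.card D : ℝ) / (Module.finrank E L : ℝ)) := by
  have hbad : ∀ w, Bad n S P w → Pool.Agent.Q15.DI.Bad n S P w := by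
    rintro w ⟨ℓ, hℓ, τ, ρ, h1, h2, h3, h4⟩
    refine ⟨ℓ, hℓ, τ, ρ, h1, h2, fun v hv hvℓ σ hσ => ?_, ?_⟩
    · obtain ⟨Q, hQ, hQv, hQσ⟩ := hσ
      exact h3 v hv hvℓ Q hQ hQv σ hQσ
    · unfold IsIrreducible at h4
      push Not at h4
      obtain ⟨W, hW, hW0, hW1⟩ := h4 hn
      exact ⟨W, hW, hW0, hW1⟩
  have hcnt : ∀ X : ℕ, (Nat.card {w : HeightOneSpectrum (𝓞 E) //
      Ideal.absNorm w.asIdeal ≤ X ∧ Bad n S P w} : ℝ) ≤
        (Pool.Agent.Q15.DI.cnt (Pool.Agent.Q15.DI.Bad n S P) X : ℝ) := by
    intro X
    have h1 := Pool.Agent.Q15.DI.cnt_le (P := Bad n S P)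
      (Q := Pool.Agent.Q15.DI.Bad n S P) ∅ Set.finite_empty (fun w hw => Or.inr (hbad w hw)) X
    rw [Set.ncard_empty, zero_add] at h1
    exact_mod_cast h1
  have hall : ∀ X : ℕ, (Pool.Agent.Q15.DI.cnt (E := E) (fun _ => True) X : ℝ) =
      (Nat.card {w : HeightOneSpectrum (𝓞 E) // Ideal.absNorm w.asIdeal ≤ X} : ℝ) := by
    intro X
    unfold Pool.Agent.Q15.DI.cnt
    simp only [and_true]
  have hL : NumberField L := NumberField.of_module_finite E L
  intro ε hε
  have h3 := Pool.Agent.Q15.DI.four (n := n) S hS P
    (Pool.Agent.Q15.DI.res (E := E) (N := L)) Pool.Agent.Q15.DI.res_open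
    Pool.Agent.Q15.DI.res_surj D hsize hperiod ε hε
  have hcard : Nat.card Gal(L/E) = Module.finrank E L := IsGalois.card_aut_eq_finrank E L
  filter_upwards [h3] with X hX
  refine (hcnt X).trans (hX.trans ?_)
  rw [hall, hcard]
  exact le_refl _

end Pool.Agent.Results.MP_fa5bba_nt.DensityOne
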