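import Pool.Agent.Q15.ND.E1

/-!
# Irreducibility for every `ℓ` of the Galois representations of `GL_3` and `GL_4` which are not
essentially self-dual

Let `π` be a cuspidal automorphic representation of `GL_n` over `ℚ`, `n ≤ 4`, which is algebraic
and whose Hecke polynomials have coefficients in a number field `E` (this is known if `π` is regular
algebraic).  Let `ℓ` be any prime number and `ρ : Gal(ℚ̄/ℚ) → GL_n(ℚ̄_ℓ)` any continuous
representation attached to `π`.  We show:

* if `n ≤ 2`, or `π` is not essentially self-dual (`π^∨ ≇ π ⊗ χ` for all characters `χ` of finite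
  order), then `ρ` is irreducible;
* if `n = 4` and `π` is essentially self-dual, all proper stable subspaces of `ρ` have dimension
  two.

Nothing is assumed at infinity (no regularity) or at `ℓ` (not de Rham), no semisimplicity of `ρ`, no
compatible system: everything holds for the single representation `ρ`, for every `ℓ`.

Known before (to my knowledge): `n = 2` (Ribet); `n = 3`, `π` regular algebraic, over totally real
fields (Böckle, Hui, for every `ℓ`); for essentially self-dual regular `π` many results for `ℓ` in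
sets of density one or large `ℓ`.  For `n = 4`, `π` not essentially self-dual, the result for every
`ℓ` is new, as far as I know, as well as everything without regularity.

What is used of `π` is listed in the structure `Cuspidal`; all of it is known: `α v` is the Satake
parameter of the unitary representation `π ⊗ |det|^t`; `|a| < N(v)^(1/2)` (Jacquet, Shalika); the
partial `L`-functions `L(s, π × χ)`, `L(s, π × π^∨ × χ)`, `L(s, π × π × χ)` (`χ` of finite order)
converge for `s > 1` and have at `s = 1` no zero, and no pole except for the simple poles if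
`π ⊗ χ ≅ π`, `π ⊗ χ ≅ π^∨` (Jacquet, Piatetski-Shapiro, Shalika); and the same for
`L(s, ∧² π × χ)`, which has at most a simple pole, and only if `π ⊗ χ ≅ π^∨` (`n = 4`: Kim, Jacquet,
Shalika; `n = 3`: `∧² π = π^∨ ⊗ ω`; `n = 2`: `∧² π = ω`).

Proof.  A stable subspace `W` of dimension `1`, `n - 1` or `2` gives a character `ψ` whose values
are eigenvalues of `ρ`, or products of two eigenvalues.  By the `ℓ`-adic six exponentials theorem (proved
in the library `Pool.Agent.Y115`) a power of `ψ` is a power of the cyclotomic character.  The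
exponent is an integer: otherwise, as `E` is unramified at almost all `p`, some conjugate over `E`
of the value of `ψ` at `Frob_p` differs from it by a root of unity `≠ 1`, and is also a product of
eigenvalues; this contradicts the continuity for Frobenius elements near `1`.  So in the unitary
normalization `ψ` has finite order, by the bound `N(v)^(1/2)`.  If `V = π ⊗ ψ⁻¹` or
`V = ∧² π ⊗ ψ⁻¹` has the eigenvalue `1` at every `v`, then `∑ (-1)^k ∧^k V = 0`.  All exterior
powers of `V` are combinations of the `L`-functions above, also for `V = ∧² π ⊗ ψ⁻¹`, `n = 4`: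
`∧² (∧² π) = (π × π^∨ - 1) ⊗ ω`, `∧³ (∧² π) = Sym² π ⊗ ω + Sym² π^∨ ⊗ ω²`.  So the orders
at `s = 1` give an equation between nonnegative integers, and it has no solution.
-/

set_option autoImplicit false

namespace Pool.Agent.Results.MP_fa5bba_nt.NotSelfDual

open NumberField IsDedekindDomain Polynomial Matrix Module Filter Topology

/-- The norm of the place `v` of `ℚ` (a prime number). -/
noncomputable def norm (v : HeightOneSpectrum (𝓞 ℚ)) : ℝ := (Ideal.absNorm v.asIdeal : ℝ)

/-- `c v`, `v ∉ S`, is the value at the geometric Frobenius elements at `v` of a character of finite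
order of the absolute Galois group of `ℚ`, which is unramified outside `S`. -/
def IsTwist (S : Set (HeightOneSpectrum (𝓞 ℚ))) (c : HeightOneSpectrum (𝓞 ℚ) → ℂ) : Prop :=
  ∃ φ : Gal(AlgebraicClosure ℚ/ℚ) →* ℂˣ, IsOpen (φ.ker : Set Gal(AlgebraicClosure ℚ/ℚ)) ∧
    ∀ v, v ∉ S → ∀ Q : Ideal (𝓞 (AlgebraicClosure ℚ)), Q.IsPrime →
      Q.comap (algebraMap (𝓞 ℚ) (𝓞 (AlgebraicClosure ℚ))) = v.asIdeal →
      (∀ g : Gal(AlgebraicClosure ℚ/ℚ), (∀ x : 𝓞 (AlgebraicClosure ℚ), g • x - x ∈ Q) →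
        φ g = 1) ∧
      ∀ g : Gal(AlgebraicClosure ℚ/ℚ),
        (∀ x : 𝓞 (AlgebraicClosure ℚ), g • x - x ^ Ideal.absNorm v.asIdeal ∈ Q) →
          ((φ g⁻¹ : ℂˣ) : ℂ) = c v

/-- The parameters of the twist. -/
noncomputable def twist (c : ℂ) (A : Multiset ℂ) : Multiset ℂ := A.map fun a => c * a

/-- The parameters of the dual. -/
noncomputable def dual (A : Multiset ℂ) : Multiset ℂ := A.map fun a => a⁻¹

/-- The parameters of the tensor product. -/
noncomputable def tensor (A B : Multiset ℂ) : Multiset ℂ := A.bind fun a => B.map fun b => a * b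

/-- The parameters of the exterior square. -/
noncomputable def exteriorSquare (A : Multiset ℂ) : Multiset ℂ :=
  (A.powersetCard 2).map Multiset.prod

/-- The Euler product of the `∏_{a ∈ A v} (1 - a N(v)⁻ˢ)⁻¹`, `v ∉ S`, converges for `s > 1` to
`L s ≠ 0`, and has order `k` at `s = 1`: `log |L s| / log (1 / (s - 1))` tends to `k` as `s → 1`. -/
def HasOrder (S : Set (HeightOneSpectrum (𝓞 ℚ))) (A : HeightOneSpectrum (𝓞 ℚ) → Multiset ℂ)
    (k : ℕ) : Prop :=
  ∃ L : ℝ → ℂ, (∀ s : ℝ, 1 < s → L s ≠ 0 ∧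
    HasProd (fun v : {v : HeightOneSpectrum (𝓞 ℚ) // v ∉ S} =>
      ((A v.1).map fun a => (1 - a * ((norm v.1 ^ (-s) : ℝ) : ℂ))⁻¹).prod) (L s)) ∧
  Tendsto (fun s : ℝ => Real.log ‖L s‖ / Real.log (1 / (s - 1))) (𝓝[>] 1) (𝓝 (k : ℝ))

/-- Known properties of the Satake parameters `α v`, `v ∉ S`, of a unitary cuspidal automorphic
representation `π` of `GL_n` over `ℚ`, `2 ≤ n ≤ 4`, unramified outside `S`. -/
structure Cuspidal (n : ℕ) (S : Set (HeightOneSpectrum (𝓞 ℚ)))
    (α : HeightOneSpectrum (𝓞 ℚ) → Multiset ℂ) : Prop where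
  /-- There are `n` parameters. -/
  card : ∀ v ∉ S, Multiset.card (α v) = n
  /-- The bound of Jacquet and Shalika. -/
  bound : ∀ v ∉ S, ∀ a ∈ α v, a ≠ 0 ∧ ‖a‖ ^ 2 < norm v
  /-- `π` is unitary: `π^∨` is the complex conjugate of `π`. -/
  unitary : ∀ v ∉ S, (α v).map (starRingEnd ℂ) = dual (α v)
  /-- `L(s, π × χ)` has no zero or pole at `s = 1`. -/
  standard : ∀ S', S'.Finite → S ⊆ S' → ∀ c, IsTwist S' c →
    HasOrder S' (fun v => twist (c v) (α v)) 0
  /-- `L(s, π × π^∨ × χ)` has no zero, and at most a simple pole at `s = 1`; it has a pole if and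
  only if `π ⊗ χ ≅ π`. -/
  adjoint : ∀ S', S'.Finite → S ⊆ S' → ∀ c, IsTwist S' c → ∃ k ≤ 1,
    HasOrder S' (fun v => twist (c v) (tensor (α v) (dual (α v)))) k ∧
      (k = 1 ↔ ∀ v ∉ S', twist (c v) (α v) = α v)
  /-- `L(s, π × π × χ)` has no zero, and at most a simple pole at `s = 1`; it has a pole if and
  only if `π ⊗ χ ≅ π^∨`. -/
  square : ∀ S', S'.Finite → S ⊆ S' → ∀ c, IsTwist S' c → ∃ k ≤ 1,
    HasOrder S' (fun v => twist (c v) (tensor (α v) (α v))) k ∧
      (k = 1 ↔ ∀ v ∉ S', twist (c v) (α v) = dual (α v))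
  /-- `L(s, ∧² π × χ)` has no zero, and at most a simple pole at `s = 1`; it has a pole only if
  `π ⊗ χ ≅ π^∨`. -/
  exterior : ∀ S', S'.Finite → S ⊆ S' → ∀ c, IsTwist S' c → ∃ k ≤ 1,
    HasOrder S' (fun v => twist (c v) (exteriorSquare (α v))) k ∧
      (k = 1 → ∀ v ∉ S', twist (c v) (α v) = dual (α v))

/-- `π` is essentially self-dual: `π ⊗ χ ≅ π^∨` for some character `χ` of finite order. -/
def IsEssentiallySelfDual (S : Set (HeightOneSpectrum (𝓞 ℚ)))
    (α : HeightOneSpectrum (𝓞 ℚ) → Multiset ℂ) : Prop :=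
  ∃ S', S'.Finite ∧ S ⊆ S' ∧ ∃ c, IsTwist S' c ∧ ∀ v ∉ S', twist (c v) (α v) = dual (α v)

variable {ℓ : ℕ} [Fact ℓ.Prime] {n : ℕ}

/-- The matrix of `g`. -/
noncomputable def mat (ρ : Gal(AlgebraicClosure ℚ/ℚ) →* GL (Fin n) (PadicAlgCl ℓ))
    (g : Gal(AlgebraicClosure ℚ/ℚ)) : Matrix (Fin n) (Fin n) (PadicAlgCl ℓ) :=
  (ρ g : GL (Fin n) (PadicAlgCl ℓ))

/-- The representation `ρ` is unramified at `v`, and the eigenvalues (with multiplicities) of every
geometric Frobenius element at `v` correspond under `ι` to the complex numbers in `D`. -/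
structure AttachedAt (ρ : Gal(AlgebraicClosure ℚ/ℚ) →* GL (Fin n) (PadicAlgCl ℓ))
    (ι : PadicAlgCl ℓ →+* ℂ) (v : HeightOneSpectrum (𝓞 ℚ)) (D : Multiset ℂ) : Prop where
  unramified : ∀ Q : Ideal (𝓞 (AlgebraicClosure ℚ)), Q.IsPrime →
    Q.comap (algebraMap (𝓞 ℚ) (𝓞 (AlgebraicClosure ℚ))) = v.asIdeal →
    ∀ g : Gal(AlgebraicClosure ℚ/ℚ), (∀ x : 𝓞 (AlgebraicClosure ℚ), g • x - x ∈ Q) → ρ g = 1
  frobenius : ∀ Q : Ideal (𝓞 (AlgebraicClosure ℚ)), Q.IsPrime →
    Q.comap (algebraMap (𝓞 ℚ) (𝓞 (AlgebraicClosure ℚ))) = v.asIdeal →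
    ∀ g : Gal(AlgebraicClosure ℚ/ℚ),
      (∀ x : 𝓞 (AlgebraicClosure ℚ), g • x - x ^ Ideal.absNorm v.asIdeal ∈ Q) →
        ((mat ρ g⁻¹).charpoly.map ι).roots = D

/-- **Irreducibility for every `ℓ`, `n ≤ 4`, `π` not essentially self-dual.**

Let `2 ≤ n ≤ 4`, and let `α v` be complex numbers with the properties of the Satake parameters of a
unitary cuspidal automorphic representation `π` of `GL_n` over `ℚ` which is unramified outside the
finite set `S`, such that the polynomials `∏_{a ∈ α v} (X - N(v)^(w/2) a)` have coefficients in the number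
field `E`, for an integer `w`.  Let `ℓ` be any prime number, and `ρ` any continuous representation
which is attached to `π ⊗ |det|^(-w/2)` at all places `v ∉ S` which are not above `ℓ`.  Then every proper
stable subspace `W ≠ 0` of `ρ` has the following properties: `π` is essentially self-dual, `n ≥ 3`,
and `W` has dimension two if `n = 4`.  In particular `ρ` is irreducible if `n = 2` or `π` is not
essentially self-dual. -/
theorem result {n : ℕ} (hn : 2 ≤ n) (hn4 : n ≤ 4) {S : Set (HeightOneSpectrum (𝓞 ℚ))}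
    (hS : S.Finite) {α : HeightOneSpectrum (𝓞 ℚ) → Multiset ℂ} (hα : Cuspidal n S α)
    {E : Type} [Field E] [NumberField E] [Algebra E ℂ] (w : ℤ)
    (P : HeightOneSpectrum (𝓞 ℚ) → E[X])
    (hP : ∀ v ∉ S, (P v).aroots ℂ = twist ((norm v ^ ((w : ℝ) / 2) : ℝ) : ℂ) (α v))
    (ℓ : ℕ) [Fact ℓ.Prime] (ι : PadicAlgCl ℓ →+* ℂ)
    (ρ : Gal(AlgebraicClosure ℚ/ℚ) →* GL (Fin n) (PadicAlgCl ℓ)) (hρ : Continuous ρ)
    (hat : ∀ v ∉ S, (ℓ : 𝓞 ℚ) ∉ v.asIdeal → AttachedAt ρ ι v ((P v).aroots ℂ))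
    (W : Submodule (PadicAlgCl ℓ) (Fin n → PadicAlgCl ℓ))
    (hW : ∀ g, ∀ x ∈ W, mat ρ g *ᵥ x ∈ W) :
    W = ⊥ ∨ W = ⊤ ∨
      (IsEssentiallySelfDual S α ∧ 3 ≤ n ∧ (n = 4 → finrank (PadicAlgCl ℓ) W = 2)) := by
  classical
  have hℓ : (Fact.out : ℓ.Prime) = (Fact.out : ℓ.Prime) := rfl
  set S' : Set (HeightOneSpectrum (𝓞 ℚ)) := S ∪ {v | (ℓ : 𝓞 ℚ) ∈ v.asIdeal} with hS'
  have hS'f : S'.Finite := by
    refine hS.union ?_
    have hℓp : ℓ.Prime := Fact.out
    refine (Pool.Agent.Q15.ND.finite_dvd hℓp.pos).subset fun v hv => ?_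
    show Pool.Agent.Q15.ND.pn v ∣ ℓ
    rw [← (Pool.Agent.Q15.ND.natCast_mem_iff v hℓp).1 hv]
  have hSS : S ⊆ S' := Set.subset_union_left
  have hvS : ∀ v, v ∉ S' → v ∉ S := fun v hv h => hv (hSS h)
  have hvℓ : ∀ v, v ∉ S' → (ℓ : 𝓞 ℚ) ∉ v.asIdeal := fun v hv h => hv (Or.inr h)
  have hCs : Pool.Agent.Q15.ND.Cs n S' α := by
    refine ⟨fun v hv => hα.card v (hvS v hv), fun v hv a ha => (hα.bound v (hvS v hv) a ha).1,
      fun v hv => hα.unitary v (hvS v hv), fun c hc => hα.standard S' hS'f hSS c hc,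
      fun c hc => ?_, fun c hc => ?_, fun c hc => ?_⟩
    · obtain ⟨k, hk1, hk, hk2⟩ := hα.adjoint S' hS'f hSS c hc
      by_cases h : ∀ v, v ∉ S' → Pool.Agent.Q15.ND.tw (c v) (α v) = α v
      · rw [if_pos h, ← hk2.2 h]
        exact hk
      · rw [if_neg h]
        have h1 : k = 0 := by
          by_contra h2
          exact h (hk2.1 (by omega))
        rw [h1] at hk
        exact hk
    · obtain ⟨k, hk1, hk, hk2⟩ := hα.square S' hS'f hSS c hc
      by_cases h : ∀ v, v ∉ S' → Pool.Agent.Q15.ND.tw (c v) (α v) = Pool.Agent.Q15.ND.iv (α v)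
      · rw [if_pos h, ← hk2.2 h]
        exact hk
      · rw [if_neg h]
        have h1 : k = 0 := by
          by_contra h2
          exact h (hk2.1 (by omega))
        rw [h1] at hk
        exact hk
    · obtain ⟨k, hk1, hk, hk2⟩ := hα.exterior S' hS'f hSS c hc
      refine ⟨k, ?_, hk⟩
      by_cases h : ∀ v, v ∉ S' → Pool.Agent.Q15.ND.tw (c v) (α v) = Pool.Agent.Q15.ND.iv (α v)
      · rw [if_pos h]
        exact hk1
      · rw [if_neg h]
        by_contra h2
        exact h (hk2 (by omega))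
  have key := Pool.Agent.Q15.ND.main (ℓ := ℓ) (S := S') hn hn4 hS'f hvℓ hCs
    (fun v hv a ha => (hα.bound v (hvS v hv) a ha).2) (w := w) (P := P)
    (fun v hv => hP v (hvS v hv)) (ι := ι) (ρ := ρ) hρ
    (fun v hv Q hQ hQv => ⟨fun g hg => (hat v (hvS v hv) (hvℓ v hv)).unramified Q hQ hQv g hg,
      fun g hg => (hat v (hvS v hv) (hvℓ v hv)).frobenius Q hQ hQv g hg⟩) W
    (fun g x hx => hW g x hx)
  rcases key with h | h | ⟨⟨c, hc, hcα⟩, h1, h2⟩
  · exact Or.inl h
  · exact Or.inr (Or.inl h)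
  · exact Or.inr (Or.inr ⟨⟨S', hS'f, hSS, c, hc, hcα⟩, h1, h2⟩)

end Pool.Agent.Results.MP_fa5bba_nt.NotSelfDual
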