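import Pool.Agent.Q15.HP7

/-!
# Irreducibility for every `ℓ` from one Hecke polynomial

Let `π` be an algebraic cuspidal automorphic representation of `GL_n` over `ℚ`, and `p` a prime
number at which `π` is unramified, with Hecke polynomial `P` (its roots are the eigenvalues of the
Satake parameter `a_σ`, `σ = π_p ⊗ |det|^((1-n)/2)`).  Suppose that

* `P` is irreducible over a field `E` which contains its coefficients, and `n` is a prime number,
  or the Galois group of `P` over `E` acts doubly transitively on its roots (for example if it is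
  the symmetric or the alternating group, `n ≥ 4`);
* not all quotients of roots of `P` are roots of unity.

We show: for every `ℓ ≠ p` every `ρ` attached to `π` is irreducible.  Nothing is assumed at infinity (no regularity) or at `ℓ`, no self-duality,
no semisimplicity of `ρ`; all that is used of `ρ` is that it is continuous and corresponds to `π`
at three prime numbers, at which the Satake parameters are algebraic.  The theorem is proved
over every number field `K`, for a place `v` which is the only place above an unramified prime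
number `p`.

Proof.  The determinant of a stable subspace is a character with algebraic values at Frobenius
elements; by the `ℓ`-adic six exponentials theorem (proved in the library `Pool.Agent.Y115`) its
value at `p` is a root of unity times a rational power of `p`.  The exponents of all relations of
this kind between the roots of `P` form a rational representation of the Galois group of `P`; it
consists only of the constants.  So no proper subset of the roots has such a product, which gives
the irreducibility.
-/

set_option autoImplicit false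

namespace Pool.Agent.Results.MP_fa5bba_nt.OneHeckeIrreducible

open NumberField IsDedekindDomain Polynomial Matrix Module

/-- The polynomial `P` over `E` is irreducible; its degree is a prime number, or its Galois group
acts doubly transitively on the roots; and not all quotients of roots are roots of unity. -/
structure GoodPolynomial {E : Type} [Field E] [Algebra E ℂ] (P : E[X]) : Prop where
  irreducible : Irreducible P
  galois : P.natDegree.Prime ∨ ∀ a ∈ P.rootSet P.SplittingField,
    ∀ b ∈ P.rootSet P.SplittingField, ∀ a' ∈ P.rootSet P.SplittingField,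
    ∀ b' ∈ P.rootSet P.SplittingField, a ≠ b → a' ≠ b' →
      ∃ σ : P.SplittingField ≃ₐ[E] P.SplittingField, σ a = a' ∧ σ b = b'
  ratio : ∃ a ∈ P.aroots ℂ, ∃ b ∈ P.aroots ℂ, ∀ N : ℕ, 0 < N → a ^ N ≠ b ^ N

variable {K : Type} [Field K] [NumberField K] {ℓ : ℕ} [Fact ℓ.Prime] {n : ℕ}

/-- The place `v` of `K` lies above the prime number `q`. -/
def Above (v : HeightOneSpectrum (𝓞 K)) (q : ℕ) : Prop := (q : 𝓞 K) ∈ v.asIdeal

/-- The prime number `q` is unramified in `K`. -/
def UnramifiedIn (K : Type) [Field K] [NumberField K] (q : ℕ) : Prop :=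
  ∀ v : HeightOneSpectrum (𝓞 K), Above v q → (q : 𝓞 K) ∉ v.asIdeal ^ 2

/-- The matrix of `g`. -/
noncomputable def mat (ρ : Gal(AlgebraicClosure K/K) →* GL (Fin n) (PadicAlgCl ℓ))
    (g : Gal(AlgebraicClosure K/K)) : Matrix (Fin n) (Fin n) (PadicAlgCl ℓ) :=
  (ρ g : GL (Fin n) (PadicAlgCl ℓ))

/-- The representation `ρ` is unramified at `v`, and the eigenvalues (with multiplicities) of every
geometric Frobenius element at `v` correspond under `ι` to the complex numbers in `D`. -/
structure AttachedAt (ρ : Gal(AlgebraicClosure K/K) →* GL (Fin n) (PadicAlgCl ℓ))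
    (ι : PadicAlgCl ℓ →+* ℂ) (v : HeightOneSpectrum (𝓞 K)) (D : Multiset ℂ) : Prop where
  unramified : ∀ Q : Ideal (𝓞 (AlgebraicClosure K)), Q.IsPrime →
    Q.comap (algebraMap (𝓞 K) (𝓞 (AlgebraicClosure K))) = v.asIdeal →
    ∀ g : Gal(AlgebraicClosure K/K), (∀ x : 𝓞 (AlgebraicClosure K), g • x - x ∈ Q) → ρ g = 1
  frobenius : ∀ Q : Ideal (𝓞 (AlgebraicClosure K)), Q.IsPrime →
    Q.comap (algebraMap (𝓞 K) (𝓞 (AlgebraicClosure K))) = v.asIdeal →
    ∀ g : Gal(AlgebraicClosure K/K),
      (∀ x : 𝓞 (AlgebraicClosure K), g • x - x ^ Ideal.absNorm v.asIdeal ∈ Q) →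
        ((mat ρ g⁻¹).charpoly.map ι).roots = D

/-- `ρ` is irreducible. -/
def IsIrreducible (ρ : Gal(AlgebraicClosure K/K) →* GL (Fin n) (PadicAlgCl ℓ)) : Prop :=
  0 < n ∧ ∀ W : Submodule (PadicAlgCl ℓ) (Fin n → PadicAlgCl ℓ),
    (∀ g, ∀ x ∈ W, mat ρ g *ᵥ x ∈ W) → W = ⊥ ∨ W = ⊤

/-- **Irreducibility for every `ℓ ≠ p` from one Hecke polynomial.**

Let `K` be a number field (for example `ℚ`), and let complex numbers `S v` be given for the places
`v` of `K` (in the application the eigenvalues of the Satake parameters of an algebraic cuspidal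
automorphic representation `π` of `GL_n`).  Let `T` be a set of at least three prime numbers, not
containing `ℓ`, unramified in `K`, such that the numbers in `S v` are algebraic for all `v` above
the `q ∈ T`.  Let `p ∈ T` be such that there is only one place `v` above `p` (as is always the
case for `K = ℚ`), and suppose that `S v` is the multiset of the roots of a good polynomial.
Let `ρ` be a continuous representation attached to the `S v` for the places `v` above the
`q ∈ T`.  Then `ρ` is irreducible. -/
theorem result (K : Type) [Field K] [NumberField K] (ℓ : ℕ) [Fact ℓ.Prime] {n : ℕ}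
    (S : HeightOneSpectrum (𝓞 K) → Multiset ℂ) (T : Set ℕ) (hT3 : 3 ≤ T.encard)
    (hT : ∀ q ∈ T, q.Prime ∧ q ≠ ℓ ∧ UnramifiedIn K q)
    (halg : ∀ q ∈ T, ∀ v : HeightOneSpectrum (𝓞 K), Above v q → ∀ a ∈ S v, IsAlgebraic ℚ a)
    {p : ℕ} (hp : p ∈ T) (v : HeightOneSpectrum (𝓞 K))
    (hv : ∀ v' : HeightOneSpectrum (𝓞 K), Above v' p ↔ v' = v)
    {E : Type} [Field E] [Algebra E ℂ] {P : E[X]} (hP : GoodPolynomial P)
    (hS : S v = P.aroots ℂ) (ι : PadicAlgCl ℓ →+* ℂ)
    (ρ : Gal(AlgebraicClosure K/K) →* GL (Fin n) (PadicAlgCl ℓ)) (hρ : Continuous ρ)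
    (hatt : ∀ q ∈ T, ∀ v : HeightOneSpectrum (𝓞 K), Above v q → AttachedAt ρ ι v (S v)) :
    IsIrreducible ρ :=
  (Pool.Agent.Q15.HP.main_gal ℓ ρ hρ ι T hT3 hT S
    (fun q hq v hqv Q hQ hQv => ⟨(hatt q hq v hqv).unramified Q hQ hQv,
      (hatt q hq v hqv).frobenius Q hQ hQv⟩) halg hp v hv hP.irreducible hP.galois hS.symm
    hP.ratio).1

end Pool.Agent.Results.MP_fa5bba_nt.OneHeckeIrreducible
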