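import Pool.Agent.Q15.HP7
import Pool.Agent.Q15.XP.ExtA
import Pool.Agent.Q15.XP.Sym

/-!
# Symmetric and exterior powers over all finite extensions, from one Hecke polynomial

Let `π` be an algebraic cuspidal automorphic representation of `GL_n` over `ℚ`, and `p` a prime
number at which `π` is unramified, with Hecke polynomial `P` (its roots are the eigenvalues of the
Satake parameter `a_σ`, `σ = π_p ⊗ |det|^((1-n)/2)`).  Suppose that

* `P` is irreducible over a field `E` which contains its coefficients, and `n` is a prime number,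
  or the Galois group of `P` over `E` acts doubly transitively on its roots (for example if it is
  the symmetric or the alternating group, `n ≥ 4`);
* not all quotients of roots of `P` are roots of unity.

Let `ρ` be attached to `π`, `ℓ ≠ p`.  Then either `ρ` is induced from a representation of dimension
`n / m` of a subgroup of index `m > 1` (so of dimension one, if `n` is prime), or over every finite
extension of `ℚ` the representation `ρ` and all its symmetric and exterior powers are irreducible,
and the Zariski closure of the image contains `SL_n`.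

So the representations attached to the base change of `π` and of its symmetric and exterior
powers (if these are automorphic: for example the exterior square for `n = 4`, by Kim) are
irreducible for every `ℓ ≠ p`; their own Hecke polynomials do not satisfy the two conditions in
general.  Nothing is assumed at infinity (no regularity) or at `ℓ`, no self-duality, no
semisimplicity of `ρ`; all that is used of `ρ` is that it is continuous and corresponds to `π`
at three prime numbers, at which the Satake parameters are algebraic.  The theorem is proved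
over every number field `K`, for a place `v` which is the only place above an unramified prime
number `p`.

Proof.  By the `ℓ`-adic six exponentials theorem (proved in the library `Pool.Agent.Y115`) there
are only trivial relations between the roots of `P` of the kind which hold for determinants of
stable subspaces, so the Zariski closure contains all diagonal matrices of determinant one in a
basis of eigenvectors of Frobenius.  Its Lie algebra is stable under conjugation by the image, and
is a sum of root spaces; its blocks are permuted transitively.  If there is one block only, then the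
closure contains `SL_n`, also for every subgroup of finite index; the weights of the symmetric and
exterior powers have multiplicity one, and their irreducibility follows.
-/

set_option autoImplicit false

namespace Pool.Agent.Results.MP_fa5bba_nt.SymmetricAndExteriorPowers

open NumberField IsDedekindDomain Polynomial Matrix Module

/-- The polynomial `P` over `E` is irreducible; its degree is a prime number, or its Galois group
acts doubly transitively on the roots; and not all quotients of roots are roots of unity. -/
structure GoodPolynomial {E : Type} [Field E] [Algebra E ℂ] (P : E[X]) : Prop where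
  irreducible : Irreducible P
  galois : P.natDegree.Prime ∨ ∀ a ∈ P.rootSet P.SplittingField,
    ∀ b ∈ P.rootSet P.SplittingField, ∀ a' ∈ P.rootSet P.SplittingField,
    ∀ b' ∈ P.rootSet P.SplittingField, a ≠ b → a' ≠ b' →
      ∃ σ : P.SplittingField ≃ₐ[E] P.SplittingField, σ a = a' ∧ σ b = b'
  ratio : ∃ a ∈ P.aroots ℂ, ∃ b ∈ P.aroots ℂ, ∀ N : ℕ, 0 < N → a ^ N ≠ b ^ N

variable {K : Type} [Field K] [NumberField K] {ℓ : ℕ} [Fact ℓ.Prime] {n : ℕ}

/-- The place `v` of `K` lies above the prime number `q`. -/
def Above (v : HeightOneSpectrum (𝓞 K)) (q : ℕ) : Prop := (q : 𝓞 K) ∈ v.asIdeal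

/-- The prime number `q` is unramified in `K`. -/
def UnramifiedIn (K : Type) [Field K] [NumberField K] (q : ℕ) : Prop :=
  ∀ v : HeightOneSpectrum (𝓞 K), Above v q → (q : 𝓞 K) ∉ v.asIdeal ^ 2

/-- The matrix of `g`. -/
noncomputable def mat (ρ : Gal(AlgebraicClosure K/K) →* GL (Fin n) (PadicAlgCl ℓ))
    (g : Gal(AlgebraicClosure K/K)) : Matrix (Fin n) (Fin n) (PadicAlgCl ℓ) :=
  (ρ g : GL (Fin n) (PadicAlgCl ℓ))

/-- The representation `ρ` is unramified at `v`, and the eigenvalues (with multiplicities) of every
geometric Frobenius element at `v` correspond under `ι` to the complex numbers in `D`. -/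
structure AttachedAt (ρ : Gal(AlgebraicClosure K/K) →* GL (Fin n) (PadicAlgCl ℓ))
    (ι : PadicAlgCl ℓ →+* ℂ) (v : HeightOneSpectrum (𝓞 K)) (D : Multiset ℂ) : Prop where
  unramified : ∀ Q : Ideal (𝓞 (AlgebraicClosure K)), Q.IsPrime →
    Q.comap (algebraMap (𝓞 K) (𝓞 (AlgebraicClosure K))) = v.asIdeal →
    ∀ g : Gal(AlgebraicClosure K/K), (∀ x : 𝓞 (AlgebraicClosure K), g • x - x ∈ Q) → ρ g = 1
  frobenius : ∀ Q : Ideal (𝓞 (AlgebraicClosure K)), Q.IsPrime →
    Q.comap (algebraMap (𝓞 K) (𝓞 (AlgebraicClosure K))) = v.asIdeal →
    ∀ g : Gal(AlgebraicClosure K/K),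
      (∀ x : 𝓞 (AlgebraicClosure K), g • x - x ^ Ideal.absNorm v.asIdeal ∈ Q) →
        ((mat ρ g⁻¹).charpoly.map ι).roots = D

/-- The matrices of the elements of `Δ`. -/
def image (ρ : Gal(AlgebraicClosure K/K) →* GL (Fin n) (PadicAlgCl ℓ))
    (Δ : Subgroup Gal(AlgebraicClosure K/K)) : Set (Matrix (Fin n) (Fin n) (PadicAlgCl ℓ)) :=
  {M | ∃ g ∈ Δ, mat ρ g = M}

/-- The Zariski closure of the set `Γ` of matrices contains `SL_n`: every polynomial in the matrix
entries which vanishes on `Γ` vanishes on `SL_n`. -/
def DenseInSL {F : Type} [Field F] (Γ : Set (Matrix (Fin n) (Fin n) F)) : Prop :=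
  ∀ f : MvPolynomial (Fin n × Fin n) F,
    (∀ M ∈ Γ, MvPolynomial.eval (fun x => M x.1 x.2) f = 0) →
    ∀ M : Matrix (Fin n) (Fin n) F, M.det = 1 → MvPolynomial.eval (fun x => M x.1 x.2) f = 0

/-- The subspace `H` is not zero, and it contains no subspaces stable under all `T i` other than `0`
and `H`. -/
def IrreducibleOn {F V I : Type} [Field F] [AddCommGroup V] [Module F V] (H : Submodule F V)
    (T : I → V →ₗ[F] V) : Prop :=
  H ≠ ⊥ ∧ ∀ U ≤ H, (∀ i, ∀ u ∈ U, T i u ∈ U) → U = ⊥ ∨ U = H

/-- The matrices in `Γ` act irreducibly on the exterior power `Λ^k F^n`, a subspace of the exterior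
algebra. -/
def ExteriorPowerIrreducible {F : Type} [Field F] (Γ : Set (Matrix (Fin n) (Fin n) F)) (k : ℕ) :
    Prop :=
  IrreducibleOn (⋀[F]^k (Fin n → F))
    fun M : Γ => (ExteriorAlgebra.map (Matrix.mulVecLin M.1)).toLinearMap

/-- The matrices in `Γ` act irreducibly on the symmetric power `Sym^k F^n`, that is, on the space of
the homogeneous polynomials of degree `k` in the basis vectors `X_0, …, X_(n-1)`; the matrix `M` maps
`X_i` to `∑ j, M_(j,i) X_j`. -/
def SymmetricPowerIrreducible {F : Type} [Field F] (Γ : Set (Matrix (Fin n) (Fin n) F)) (k : ℕ) :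
    Prop :=
  IrreducibleOn (MvPolynomial.homogeneousSubmodule (Fin n) F k)
    fun M : Γ => (MvPolynomial.aeval
      (fun i => ∑ j, MvPolynomial.C (M.1 j i) * MvPolynomial.X j)).toLinearMap

/-- For every subgroup `Δ` of finite index the Zariski closure of the image contains `SL_n`, and
all exterior powers `Λ^k ρ`, `k ≤ n`, and symmetric powers `Sym^k ρ` are irreducible on `Δ`. -/
def HasIrreduciblePowers (ρ : Gal(AlgebraicClosure K/K) →* GL (Fin n) (PadicAlgCl ℓ)) : Prop :=
  ∀ Δ : Subgroup Gal(AlgebraicClosure K/K), Δ.FiniteIndex →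
    DenseInSL (image ρ Δ) ∧ (∀ k ≤ n, ExteriorPowerIrreducible (image ρ Δ) k) ∧
      ∀ k, SymmetricPowerIrreducible (image ρ Δ) k

/-- `ρ` is induced from a representation of dimension `d` of a subgroup of index `m > 1`: the space
is the direct sum of `m` subspaces of dimension `d`, which are permuted transitively by `ρ`. -/
def IsInduced (ρ : Gal(AlgebraicClosure K/K) →* GL (Fin n) (PadicAlgCl ℓ)) (m d : ℕ) : Prop :=
  2 ≤ m ∧ ∃ W : Fin m → Submodule (PadicAlgCl ℓ) (Fin n → PadicAlgCl ℓ),
    DirectSum.IsInternal W ∧ (∀ i, finrank (PadicAlgCl ℓ) (W i) = d) ∧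
    (∀ g i, ∃ j, (W i).map (Matrix.mulVecLin (mat ρ g)) = W j) ∧
    ∀ i j, ∃ g, (W i).map (Matrix.mulVecLin (mat ρ g)) = W j

/-- **Symmetric and exterior powers over all finite extensions, from one Hecke polynomial.**

Let `K` be a number field (for example `ℚ`), and let complex numbers `S v` be given for the places
`v` of `K` (in the application the eigenvalues of the Satake parameters of an algebraic cuspidal
automorphic representation `π` of `GL_n`).  Let `T` be a set of at least three prime numbers, not
containing `ℓ`, unramified in `K`, such that the numbers in `S v` are algebraic for all `v` above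
the `q ∈ T`.  Let `p ∈ T` be such that there is only one place `v` above `p` (as is always the
case for `K = ℚ`), and suppose that `S v` is the multiset of the roots of a good polynomial.
Let `ρ` be a continuous representation attached to the `S v` for the places `v` above the
`q ∈ T`.  Then either `ρ` is induced from a representation of dimension `d` of a subgroup of index
`m > 1`, where `m * d = n`; or for every subgroup `Δ` of finite index of the absolute Galois group
the Zariski closure of the image of `Δ` contains `SL_n`, and the restrictions to `Δ` of all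
exterior powers `Λ^k ρ`, `k ≤ n`, and of all symmetric powers `Sym^k ρ` are irreducible. -/
theorem result (K : Type) [Field K] [NumberField K] (ℓ : ℕ) [Fact ℓ.Prime] {n : ℕ}
    (S : HeightOneSpectrum (𝓞 K) → Multiset ℂ) (T : Set ℕ) (hT3 : 3 ≤ T.encard)
    (hT : ∀ q ∈ T, q.Prime ∧ q ≠ ℓ ∧ UnramifiedIn K q)
    (halg : ∀ q ∈ T, ∀ v : HeightOneSpectrum (𝓞 K), Above v q → ∀ a ∈ S v, IsAlgebraic ℚ a)
    {p : ℕ} (hp : p ∈ T) (v : HeightOneSpectrum (𝓞 K))
    (hv : ∀ v' : HeightOneSpectrum (𝓞 K), Above v' p ↔ v' = v)
    {E : Type} [Field E] [Algebra E ℂ] {P : E[X]} (hP : GoodPolynomial P)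
    (hS : S v = P.aroots ℂ) (ι : PadicAlgCl ℓ →+* ℂ)
    (ρ : Gal(AlgebraicClosure K/K) →* GL (Fin n) (PadicAlgCl ℓ)) (hρ : Continuous ρ)
    (hatt : ∀ q ∈ T, ∀ v : HeightOneSpectrum (𝓞 K), Above v q → AttachedAt ρ ι v (S v)) :
    (∃ m d, m * d = n ∧ IsInduced ρ m d) ∨ HasIrreduciblePowers ρ := by
  obtain ⟨h1, h2⟩ := Pool.Agent.Q15.HP.main_gal ℓ ρ hρ ι T hT3 hT S
    (fun q hq v hqv Q hQ hQv => ⟨(hatt q hq v hqv).unramified Q hQ hQv,
      (hatt q hq v hqv).frobenius Q hQ hQv⟩) halg hp v hv hP.irreducible hP.galois hS.symm hP.ratio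
  rcases h2 with h2 | ⟨m, d, W, hm, hmd, hd, hW, h3, h4⟩
  · right
    intro Δ hΔ
    have hn : 0 < n := h1.1
    have hdense : Pool.Agent.Q15.XP.Dense (image ρ Δ) := by
      intro f hf M hM
      exact h2 Δ hΔ f (fun g hg => hf _ ⟨g, hg, rfl⟩) M hM
    refine ⟨hdense, ?_, ?_⟩
    · intro k hk
      refine ⟨Pool.Agent.Q15.XP.ext_ne_bot hk, ?_⟩
      intro U hUk hU
      exact Pool.Agent.Q15.XP.ext_irreducibleA _ hdense k U hUk (fun M hM u hu => hU ⟨M, hM⟩ u hu)
    · intro k
      refine ⟨?_, ?_⟩
      · intro hb
        have h5 : (MvPolynomial.X ⟨0, hn⟩ : MvPolynomial (Fin n) (PadicAlgCl ℓ)) ^ k ∈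
            MvPolynomial.homogeneousSubmodule (Fin n) (PadicAlgCl ℓ) k := by
          rw [MvPolynomial.mem_homogeneousSubmodule]
          exact MvPolynomial.isHomogeneous_X_pow _ _
        rw [hb, Submodule.mem_bot] at h5
        exact pow_ne_zero k (MvPolynomial.X_ne_zero _) h5
      · intro U hUk hU
        exact Pool.Agent.Q15.XP.sym_irreducible _ hdense k U hUk (fun M hM u hu => hU ⟨M, hM⟩ u hu)
  · exact Or.inl ⟨m, d, hmd, hm, W, hW, hd, h3, h4⟩

end Pool.Agent.Results.MP_fa5bba_nt.SymmetricAndExteriorPowers
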